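import Pool.Agent.Lib_helper17.CSF.Wt

set_option autoImplicit false

/-!
# The path expansion of the rooted polynomials

`Pi gen a` is expanded in the polynomials `pF k` of the rooted paths; the coefficients form `Hu a`.
`Hu` of the extension of `a` by a path at the root is `X ^ k * Hu a`, and the `U`-polynomial of the
tree obtained by joining the roots of `a`, `b` by an edge is a linear functional of `Hu a * Hu b`.
-/

namespace Pool.MP_1af41f_co.BPT

open Polynomial Pool.MP_1af41f_co.CSF
open scoped Classical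

/-- the tree `a` extended at the root by a path with `k` vertices (children forests) -/
def exF : ℕ → Fr → Fr
  | 0, a => a
  | k + 1, a => Fr.cons (exF k a) Fr.nil

lemma exF_size (k : ℕ) (a : Fr) : (exF k a).size = a.size + k := by
  induction k with
  | zero => rfl
  | succ k ih => simp [exF, Fr.size, ih]; omega

/-- `P ↦ X P + φ(P)` -/
noncomputable def hat (P : R[X]) : R[X] := X * P + C (phi gen P)

lemma Fhat_eq_hat (a : Fr) : Fhat gen a = hat (Pi gen a) := rfl

lemma Pi_exF_succ (k : ℕ) (a : Fr) : Pi gen (exF (k + 1) a) = hat (Pi gen (exF k a)) := by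
  show Pi gen (Fr.cons (exF k a) Fr.nil) = _
  rw [Pi_cons, Pi_nil, mul_one]
  rfl

lemma phi_smul (a : R) (P : R[X]) : phi gen (a • P) = a * phi gen P := by
  rw [smul_eq_C_mul, phi_C_mul]

lemma hat_add (P Q : R[X]) : hat (P + Q) = hat P + hat Q := by
  unfold hat
  rw [phi_add, C_add]
  ring

lemma hat_smul (a : R) (P : R[X]) : hat (a • P) = a • hat P := by
  unfold hat
  rw [phi_smul, smul_add, mul_smul_comm, C_mul, smul_eq_C_mul (p := C (phi gen P)) a]

/-- symmetry of the operator `hat` -/
lemma phi_hat_mul (P Q : R[X]) : phi gen (hat P * Q) = phi gen (P * hat Q) := by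
  unfold hat
  rw [add_mul, mul_add, phi_add, phi_add, phi_C_mul, mul_comm P (C _), phi_C_mul, mul_comm (phi gen P)]
  congr 2
  ring

/-- the polynomial of the rooted path with `k` vertices below the root -/
noncomputable def pF (k : ℕ) : R[X] := Pi gen (exF k Fr.nil)

lemma pF_zero : pF 0 = 1 := rfl

lemma pF_succ (k : ℕ) : pF (k + 1) = hat (pF k) := Pi_exF_succ k Fr.nil

/-- `X ^ k ↦ pF k` -/
noncomputable def Lam' : R[X] →ₗ[R] R[X] :=
  Polynomial.lsum fun i => LinearMap.toSpanSingleton R R[X] (pF i)

lemma Lam'_monomial (i : ℕ) (a : R) : Lam' (monomial i a) = a • pF i := by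
  unfold Lam'
  rw [lsum_apply, sum_monomial_index]
  · rfl
  · simp

lemma Lam'_X_mul (q : R[X]) : Lam' (X * q) = hat (Lam' q) := by
  induction q using Polynomial.induction_on' with
  | add p q hp hq => rw [mul_add, map_add, hp, hq, map_add, hat_add]
  | monomial n a =>
    rw [X_mul_monomial, Lam'_monomial, Lam'_monomial, hat_smul, pF_succ]

/-- `X ^ i ↦ E i`, `E i = X ^ i - y_1 X ^ (i - 1) - ... - y_i` -/
noncomputable def E : ℕ → R[X]
  | 0 => 1
  | i + 1 => X * E i - C (gen (i + 1))

/-- the inverse of `Lam'` -/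
noncomputable def M : R[X] →ₗ[R] R[X] :=
  Polynomial.lsum fun i => LinearMap.toSpanSingleton R R[X] (E i)

lemma M_monomial (i : ℕ) (a : R) : M (monomial i a) = a • E i := by
  unfold M
  rw [lsum_apply, sum_monomial_index]
  · rfl
  · simp

lemma phi_monomial (i : ℕ) (a : R) : phi gen (monomial i a) = a * gen (i + 1) := by
  unfold phi
  rw [sum_monomial_index]
  simp

lemma M_X_mul (P : R[X]) : M (X * P) = X * M P - C (phi gen P) := by
  induction P using Polynomial.induction_on' with
  | add p q hp hq =>
    rw [mul_add, map_add, hp, hq, map_add, phi_add, C_add]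
    ring
  | monomial n a =>
    rw [X_mul_monomial, M_monomial, M_monomial, phi_monomial, E, smul_sub, mul_smul_comm,
      smul_eq_C_mul (p := C (gen (n + 1))) a, C_mul]

lemma M_C (a : R) : M (C a) = C a := by
  rw [← monomial_zero_left, M_monomial, E, smul_eq_C_mul, mul_one, monomial_zero_left]

lemma M_hat (P : R[X]) : M (hat P) = X * M P := by
  unfold hat
  rw [map_add, M_X_mul, M_C]
  ring

lemma Lam'_C (a : R) : Lam' (C a) = C a := by
  rw [← monomial_zero_left, Lam'_monomial, pF_zero, smul_eq_C_mul, mul_one, monomial_zero_left]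

lemma Lam'_M (P : R[X]) : Lam' (M P) = P := by
  have key : ∀ n : ℕ, Lam' (E n) = X ^ n := by
    intro n
    induction n with
    | zero =>
      rw [E, pow_zero]
      have := Lam'_C 1
      rwa [C_1] at this
    | succ n ih =>
      rw [E, map_sub, Lam'_X_mul, ih, Lam'_C]
      unfold hat
      have : phi gen (X ^ n : R[X]) = gen (n + 1) := by
        rw [← monomial_one_right_eq_X_pow, phi_monomial, one_mul]
      rw [this]
      ring
  induction P using Polynomial.induction_on' with
  | add p q hp hq => rw [map_add, map_add, hp, hq]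
  | monomial n a =>
    rw [M_monomial, map_smul, key, smul_eq_C_mul, C_mul_X_pow_eq_monomial]

/-- the path coordinates of the rooted tree with children forest `a` -/
noncomputable def Hu (a : Fr) : R[X] := M (Pi gen a)

lemma Hu_exF (k : ℕ) (a : Fr) : Hu (exF k a) = X ^ k * Hu a := by
  induction k with
  | zero => simp [exF]
  | succ k ih =>
    unfold Hu at *
    rw [Pi_exF_succ, M_hat, ih]
    ring

lemma Pi_eq_of_Hu_eq {a b : Fr} (h : Hu a = Hu b) : Pi gen a = Pi gen b := by
  have := congrArg Lam' h
  unfold Hu at this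
  rwa [Lam'_M, Lam'_M] at this

/-- the linear functional -/
noncomputable def psi (q : R[X]) : R := phi gen (Lam' (X * q))

lemma psi_sub (p q : R[X]) : psi (p - q) = psi p - psi q := by
  unfold psi
  rw [mul_sub, map_sub, phi_sub]

lemma phi_hat_Lam (q₁ q₂ : R[X]) : phi gen (hat (Lam' q₁) * Lam' q₂) = psi (q₁ * q₂) := by
  induction q₁ using Polynomial.induction_on' with
  | add p q hp hq =>
    rw [map_add, hat_add, add_mul, phi_add, hp, hq, add_mul]
    unfold psi
    rw [mul_add, map_add, phi_add]
  | monomial n a =>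
    have key : ∀ n : ℕ, ∀ q : R[X], phi gen (hat (pF n) * Lam' q) = psi (X ^ n * q) := by
      intro n
      induction n with
      | zero =>
        intro q
        rw [phi_hat_mul, pF_zero, one_mul, pow_zero, one_mul]
        unfold psi
        rw [Lam'_X_mul]
      | succ n ih =>
        intro q
        rw [phi_hat_mul, pF_succ, ← Lam'_X_mul, ih]
        congr 1
        ring
    rw [Lam'_monomial, hat_smul, smul_mul_assoc, phi_smul, key, ← C_mul_X_pow_eq_monomial,
      mul_assoc]
    unfold psi
    rw [← smul_eq_C_mul, mul_smul_comm, map_smul, phi_smul]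

/-- **The edge formula.** -/
theorem U_edge (a b : Fr) : phi gen (Pi gen (Fr.cons a b)) = psi (Hu a * Hu b) := by
  rw [Pi_cons, Fhat_eq_hat, ← phi_hat_Lam]
  unfold Hu
  rw [Lam'_M, Lam'_M]

/-- `U` of the path with `k + 1` vertices -/
noncomputable def hh (k : ℕ) : R := phi gen (pF k)

lemma psi_eq_sum (q : R[X]) (N : ℕ) (hN : q.natDegree < N) :
    psi q = ∑ i ∈ Finset.range N, q.coeff i * hh (i + 1) := by
  have h1 : q = ∑ i ∈ Finset.range N, monomial i (q.coeff i) := by
    conv_lhs => rw [q.as_sum_range' N hN]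
  have h2 : ∀ s : Finset ℕ, psi (∑ i ∈ s, monomial i (q.coeff i)) =
      ∑ i ∈ s, q.coeff i * hh (i + 1) := by
    intro s
    induction s using Finset.induction_on with
    | empty =>
      simp only [Finset.sum_empty]
      unfold psi
      rw [mul_zero, map_zero]
      simp [phi]
    | insert i s hi ih =>
      rw [Finset.sum_insert hi, Finset.sum_insert hi, ← ih]
      unfold psi
      rw [mul_add, map_add, phi_add, X_mul_monomial, Lam'_monomial, phi_smul]
      rfl
  conv_lhs => rw [h1]
  exact h2 _

lemma pderiv_hh_self (k : ℕ) : MvPolynomial.pderiv (k + 1) (hh k) = 1 := by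
  unfold hh pF
  have hs : (exF k Fr.nil).size = k := by rw [exF_size]; simp [Fr.size]
  rw [pderiv_phi _ (by omega), cd_Pi_eq_zero_of_size (by omega) (by omega)]
  have h1 := coeff_Pi_size (exF k Fr.nil)
  rw [hs] at h1
  rw [Nat.add_sub_cancel, h1]
  simp [phi]

lemma pderiv_hh_gt {j k : ℕ} (hj : k + 1 < j) : MvPolynomial.pderiv j (hh k) = 0 := by
  unfold hh pF
  have hs : (exF k Fr.nil).size = k := by rw [exF_size]; simp [Fr.size]
  rw [pderiv_phi _ (by omega), cd_Pi_eq_zero_of_size (by omega) (by omega),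
    coeff_Pi_gt _ (by omega)]
  simp [phi]

/-- **Extraction.** -/
lemma extract (Q : R[X]) (e m : ℕ) (hfree : ∀ k j, m ≤ j → MvPolynomial.pderiv j (Q.coeff k) = 0)
    (h : psi (X ^ e * Q) = 0) : ∀ k, m ≤ k + e + 2 → Q.coeff k = 0 := by
  by_contra hcon
  push Not at hcon
  obtain ⟨k₀, hk₀, hne₀⟩ := hcon
  -- the largest such index
  have hex : ∃ k, (m ≤ k + e + 2 ∧ Q.coeff k ≠ 0) ∧ ∀ i, k < i → Q.coeff i = 0 := by
    have hb : k₀ ≤ Q.natDegree := le_natDegree_of_ne_zero hne₀
    refine ⟨Q.natDegree, ⟨by omega, ?_⟩, fun i hi => coeff_eq_zero_of_natDegree_lt hi⟩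
    have hQ : Q ≠ 0 := by
      rintro rfl
      simp at hne₀
    exact leadingCoeff_ne_zero.2 hQ
  obtain ⟨k, ⟨hk, hne⟩, hmax⟩ := hex
  apply hne
  have hdeg : Q.natDegree ≤ k := by
    rw [natDegree_le_iff_coeff_eq_zero]
    exact hmax
  have h1 : (X ^ e * Q).natDegree < k + e + 1 := by
    refine lt_of_le_of_lt natDegree_mul_le ?_
    have := natDegree_X_pow_le (R := R) e
    omega
  rw [psi_eq_sum _ _ h1] at h
  have h2 := congrArg (MvPolynomial.pderiv (k + e + 2)) h
  rw [map_sum, map_zero] at h2
  rw [Finset.sum_eq_single (k + e)] at h2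
  · rw [Derivation.leibniz, pderiv_hh_self, smul_eq_mul, smul_eq_mul, mul_one,
      coeff_X_pow_mul' , if_pos (by omega), Nat.add_sub_cancel, hfree _ _ hk, mul_zero,
      add_zero] at h2
    exact h2
  · intro i hi hne'
    rw [Finset.mem_range] at hi
    rw [Derivation.leibniz, pderiv_hh_gt (by omega), smul_eq_mul, smul_eq_mul, mul_zero, zero_add,
      coeff_X_pow_mul']
    split_ifs with h3
    · rw [hfree _ _ hk, mul_zero]
    · rw [map_zero, mul_zero]
  · intro h3
    exact absurd (Finset.mem_range.2 (by omega)) h3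

/-! ### Coefficients of `Hu` -/

lemma E_coeff (i k : ℕ) :
    (E i).coeff k = if k = i then 1 else if k < i then - gen (i - k) else 0 := by
  induction i generalizing k with
  | zero =>
    rw [E, coeff_one]
    by_cases h : k = 0
    · simp [h]
    · simp [h]
  | succ i ih =>
    rw [E, coeff_sub]
    cases k with
    | zero =>
      rw [coeff_X_mul_zero, coeff_C_zero, if_neg (by omega), if_pos (by omega)]
      simp
    | succ k =>
      rw [coeff_X_mul, coeff_C_succ, sub_zero, ih]
      simp only [Nat.add_right_cancel_iff, Nat.add_lt_add_iff_right, Nat.add_sub_add_right]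

lemma M_coeff (P : R[X]) (k N : ℕ) (hN : P.natDegree < N) :
    (M P).coeff k = P.coeff k - ∑ i ∈ Finset.range N, if k < i then P.coeff i * gen (i - k) else 0 := by
  have h0 : M P = ∑ i ∈ Finset.range N, C (P.coeff i) * E i := by
    unfold M
    rw [lsum_apply, P.sum_over_range' _ N hN]
    · refine Finset.sum_congr rfl fun i _ => ?_
      rw [LinearMap.toSpanSingleton_apply, smul_eq_C_mul]
    · intro n
      simp
  rw [h0, finsetSum_coeff]
  have h1 : ∀ i ∈ Finset.range N, (C (P.coeff i) * E i).coeff k =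
      (if i = k then P.coeff k else 0) - (if k < i then P.coeff i * gen (i - k) else 0) := by
    intro i _
    rw [coeff_C_mul, E_coeff]
    by_cases h2 : k = i
    · subst h2
      simp
    · rw [if_neg h2, if_neg (Ne.symm h2)]
      split_ifs <;> ring
  rw [Finset.sum_congr rfl h1, Finset.sum_sub_distrib, Finset.sum_ite_eq']
  congr 1
  split_ifs with h2
  · rfl
  · exact (coeff_eq_zero_of_natDegree_lt (by rw [Finset.mem_range] at h2; omega)).symm

lemma Hu_coeff (a : Fr) (k : ℕ) : (Hu a).coeff k = (Pi gen a).coeff k -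
    ∑ i ∈ Finset.range (a.size + 1), if k < i then (Pi gen a).coeff i * gen (i - k) else 0 :=
  M_coeff _ _ _ (by rw [Pi_natDegree]; omega)

lemma Hu_coeff_gt (a : Fr) {k : ℕ} (hk : a.size < k) : (Hu a).coeff k = 0 := by
  rw [Hu_coeff, coeff_Pi_gt a hk, zero_sub, neg_eq_zero]
  refine Finset.sum_eq_zero fun i hi => ?_
  rw [Finset.mem_range] at hi
  rw [if_neg (by omega)]

lemma Hu_coeff_size (a : Fr) : (Hu a).coeff a.size = 1 := by
  rw [Hu_coeff, coeff_Pi_size, sub_eq_self]
  refine Finset.sum_eq_zero fun i hi => ?_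
  rw [Finset.mem_range] at hi
  rw [if_neg (by omega)]

lemma Hu_natDegree (a : Fr) : (Hu a).natDegree = a.size := by
  refine natDegree_eq_of_le_of_coeff_ne_zero ?_ ?_
  · rw [natDegree_le_iff_coeff_eq_zero]
    intro k hk
    exact Hu_coeff_gt a hk
  · rw [Hu_coeff_size]
    exact one_ne_zero

lemma Hu_monic (a : Fr) : (Hu a).Monic := by
  rw [Monic, leadingCoeff, Hu_natDegree, Hu_coeff_size]

/-- derivatives of the coefficients of `Hu` -/
lemma pderiv_Hu (a : Fr) (v : ℕ) (hv : 0 < v) (k : ℕ) :
    (a.size < k + v → MvPolynomial.pderiv v ((Hu a).coeff k) = 0) ∧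
    (k + v = a.size → MvPolynomial.pderiv v ((Hu a).coeff k) = (a.N v : R) - 1) := by
  have hD := DLP_Pi v hv a
  have h1 : MvPolynomial.pderiv v ((Hu a).coeff k) = (cd v (Pi gen a)).coeff k -
      (∑ i ∈ Finset.range (a.size + 1), if k < i then (cd v (Pi gen a)).coeff i * gen (i - k)
        else 0) - (Pi gen a).coeff (k + v) := by
    rw [Hu_coeff, map_sub, ← cd_coeff, map_sum, sub_sub]
    congr 1
    have h2 : ∀ i ∈ Finset.range (a.size + 1),
        MvPolynomial.pderiv v (if k < i then (Pi gen a).coeff i * gen (i - k) else 0) =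
        (if k < i then (cd v (Pi gen a)).coeff i * gen (i - k) else 0) +
          (if i = k + v then (Pi gen a).coeff (k + v) else 0) := by
      intro i _
      by_cases h3 : k < i
      · rw [if_pos h3, if_pos h3, cd_coeff, Derivation.leibniz, MvPolynomial.pderiv_X]
        simp only [smul_eq_mul]
        by_cases h4 : i = k + v
        · subst h4
          rw [if_pos rfl, Nat.add_sub_cancel_left, Pi.single_eq_same]
          ring
        · rw [if_neg h4, Pi.single_eq_of_ne (by omega)]
          ring
      · rw [if_neg h3, if_neg h3, if_neg (by omega), map_zero, add_zero]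
    rw [Finset.sum_congr rfl h2, Finset.sum_add_distrib, Finset.sum_ite_eq']
    congr 1
    split_ifs with h5
    · rfl
    · exact (coeff_Pi_gt a (by rw [Finset.mem_range] at h5; omega)).symm
  have h2 : a.size ≤ k + v → (∑ i ∈ Finset.range (a.size + 1),
      if k < i then (cd v (Pi gen a)).coeff i * gen (i - k) else 0) = 0 := by
    intro hk
    refine Finset.sum_eq_zero fun i _ => ?_
    split_ifs with h3
    · rw [hD.1 i (by omega), zero_mul]
    · rfl
  constructor
  · intro hk
    rw [h1, h2 hk.le, hD.1 k hk, coeff_Pi_gt a hk]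
    simp
  · intro hk
    rw [h1, h2 hk.ge, hD.2.1 k hk, hk, coeff_Pi_size]
    simp

/-- `Hu a` does not involve `y_j` for `j > |a|` -/
lemma Hu_free (a : Fr) {j : ℕ} (hj : a.size < j) (k : ℕ) :
    MvPolynomial.pderiv j ((Hu a).coeff k) = 0 :=
  (pderiv_Hu a j (by omega) k).1 (by omega)

end Pool.MP_1af41f_co.BPT
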