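import Pool.Agent.BPT.Struct
import Pool.Agent.Lib_helper17.CSF.Below

set_option autoImplicit false

/-!
# Bare paths in trees and forests
-/

namespace Pool.MP_1af41f_co.BPT

open SimpleGraph Pool.MP_1af41f_co.CSF
open scoped Classical

/-- `v` has at most two neighbours -/
def D {V : Type} (G : SimpleGraph V) (v : V) : Prop :=
  ∀ u₁ u₂ u₃, G.Adj v u₁ → G.Adj v u₂ → G.Adj v u₃ → u₁ = u₂ ∨ u₁ = u₃ ∨ u₂ = u₃

lemma D_of_card {V : Type} [Finite V] {G : SimpleGraph V} {v : V}
    (h : Nat.card (G.neighborSet v) = 2) : D G v := by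
  intro u₁ u₂ u₃ h1 h2 h3
  by_contra hcon
  push Not at hcon
  obtain ⟨h12, h13, h23⟩ := hcon
  have h4 : ({u₁, u₂, u₃} : Set V) ⊆ G.neighborSet v := by
    intro u hu
    rcases hu with rfl | rfl | hu
    · exact h1
    · exact h2
    · rw [Set.mem_singleton_iff] at hu
      subst hu
      exact h3
  have h5 : ({u₁, u₂, u₃} : Set V).ncard = 3 := Set.ncard_eq_three.2 ⟨u₁, u₂, u₃, h12, h13, h23, rfl⟩
  have h6 := Set.ncard_le_ncard h4 (Set.toFinite _)
  rw [h5, ← Nat.card_coe_set_eq, h] at h6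
  omega

lemma D_iso {V V' : Type} {G : SimpleGraph V} {G' : SimpleGraph V'} (e : G ≃g G') {v : V}
    (h : D G v) : D G' (e v) := by
  intro u₁ u₂ u₃ h1 h2 h3
  obtain ⟨u₁, rfl⟩ := e.surjective u₁
  obtain ⟨u₂, rfl⟩ := e.surjective u₂
  obtain ⟨u₃, rfl⟩ := e.surjective u₃
  rcases h u₁ u₂ u₃ (e.map_adj_iff.1 h1) (e.map_adj_iff.1 h2) (e.map_adj_iff.1 h3) with h | h | h
  · exact Or.inl (by rw [h])
  · exact Or.inr (Or.inl (by rw [h]))
  · exact Or.inr (Or.inr (by rw [h]))

section join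
variable {V₁ V₂ : Type} {G₁ : SimpleGraph V₁} {r₁ : V₁} {G₂ : SimpleGraph V₂} {r₂ : V₂}

lemma D_left {v : V₁} (h : D (join G₁ r₁ G₂ r₂) (Sum.inl v)) : D G₁ v := by
  intro u₁ u₂ u₃ h1 h2 h3
  rcases h (Sum.inl u₁) (Sum.inl u₂) (Sum.inl u₃) h1 h2 h3 with h | h | h
  · exact Or.inl (Sum.inl_injective h)
  · exact Or.inr (Or.inl (Sum.inl_injective h))
  · exact Or.inr (Or.inr (Sum.inl_injective h))

lemma D_root (h : D (join G₁ r₁ G₂ r₂) (Sum.inl r₁)) {u₁ u₂ : V₁} (h1 : G₁.Adj r₁ u₁)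
    (h2 : G₁.Adj r₁ u₂) : u₁ = u₂ := by
  rcases h (Sum.inl u₁) (Sum.inl u₂) (Sum.inr r₂) h1 h2 ⟨rfl, rfl⟩ with h | h | h
  · exact Sum.inl_injective h
  · exact (Sum.inl_ne_inr h).elim
  · exact (Sum.inl_ne_inr h).elim

/-- a walk which avoids the root of the join stays on the left side -/
lemma walk_pull {V : Type} {H : SimpleGraph V} (e : H ≃g join G₁ r₁ G₂ r₂) {c : V}
    (hc : e c = Sum.inr r₂) {s t : V} (q : H.Walk s t) :
    ∀ u : V₁, e s = Sum.inl u → c ∉ q.support →
    ∃ y' : V₁, e t = Sum.inl y' ∧ ∃ p : G₁.Walk u y', p.length = q.length ∧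
      (∀ v ∈ p.support, ∃ z ∈ q.support, e z = Sum.inl v) ∧ (q.IsPath → p.IsPath) := by
  induction q with
  | nil =>
    intro u hu _
    refine ⟨u, hu, Walk.nil, rfl, ?_, fun _ => Walk.IsPath.nil⟩
    intro v hv
    have hv' : v = u := by simpa using hv
    subst hv'
    exact ⟨_, by simp, hu⟩
  | @cons s w t h q ih =>
    intro u hu hr
    rw [Walk.support_cons, List.mem_cons, not_or] at hr
    have hadj : (join G₁ r₁ G₂ r₂).Adj (e s) (e w) := e.map_adj_iff.2 h
    rcases hw : e w with w' | w'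
    · obtain ⟨y', hy', p, hp, hps, hpp⟩ := ih w' hw hr.2
      rw [hu, hw] at hadj
      refine ⟨y', hy', Walk.cons (show G₁.Adj u w' from hadj) p, ?_, ?_, ?_⟩
      · rw [Walk.length_cons, Walk.length_cons, hp]
      · intro v hv
        rw [Walk.support_cons, List.mem_cons] at hv
        rcases hv with rfl | hv
        · exact ⟨s, by simp, hu⟩
        · obtain ⟨z, hz, hze⟩ := hps v hv
          exact ⟨z, by rw [Walk.support_cons]; exact List.mem_cons_of_mem _ hz, hze⟩
      · intro hq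
        rw [Walk.cons_isPath_iff] at hq ⊢
        refine ⟨hpp hq.1, fun hmem => ?_⟩
        obtain ⟨z, hz, hze⟩ := hps u hmem
        have : z = s := e.injective (by rw [hze, hu])
        subst this
        exact hq.2 hz
    · exfalso
      rw [hu, hw] at hadj
      obtain ⟨_, h2⟩ := (join_inl_inr G₁ r₁ G₂ r₂ u w').1 hadj
      have : w = c := e.injective (by rw [hw, hc, h2])
      subst this
      exact hr.2 q.start_mem_support

/-- the right side is what lies behind the root, seen from the left -/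
lemma blw_from_left (y : V₁) (h₁ : ∀ z, G₁.Reachable y z) :
    blw (join G₁ r₁ G₂ r₂) (Sum.inl y) (Sum.inr r₂) = Set.range Sum.inr := by
  ext w
  rcases w with w | w
  · constructor
    · intro h
      obtain ⟨p⟩ := h₁ w
      obtain ⟨q, hq⟩ := exists_walk_map (homL G₁ r₁ G₂ r₂) p (u' := Sum.inl y) (v' := Sum.inl w)
        rfl rfl
      obtain ⟨x, _, hx⟩ := hq _ (h q)
      exact (Sum.inl_ne_inr hx).elim
    · rintro ⟨x, hx⟩
      exact (Sum.inr_ne_inl hx).elim
  · constructor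
    · intro _
      exact ⟨w, rfl⟩
    · intro _ q
      by_contra hcon
      obtain ⟨y', hy', _⟩ := walk_pull (SimpleGraph.Iso.refl (G := join G₁ r₁ G₂ r₂)) rfl q y rfl
        hcon
      exact Sum.inr_ne_inl hy'

end join

/-- A bare path starting at the root. -/
lemma bare_path (n : ℕ) : ∀ (f : Fr) (y : Fr.W f) (P : (Fr.G f).Walk (Fr.ρ f) y), P.IsPath →
    P.length = n + 1 → (∀ v ∈ P.support, v ≠ Fr.ρ f → v ≠ y → D (Fr.G f) v) →
    ∃ (x g : Fr) (e : Fr.G f ≃g Fr.G (Fr.cons (exF n x) g)),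
      e (Fr.ρ f) = Fr.ρ (Fr.cons (exF n x) g) ∧ (∃ y', e y = Sum.inl y') ∧
      Fr.Sz f y = 1 + x.size := by
  induction n with
  | zero =>
    intro f y P hP hl hD
    cases P with
    | nil => simp at hl
    | @cons _ v₁ _ h P' =>
      cases P' with
      | nil =>
        obtain ⟨c, g, e, he, hev⟩ := Fr.exists_front_adj f y h
        refine ⟨c, g, e, he, ⟨Fr.ρ c, hev⟩, ?_⟩
        have h1 : Fr.Sz f y = Fr.Sz (Fr.cons c g) (e y) := by
          unfold Fr.Sz
          rw [← card_blw_iso e, he]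
        rw [h1, hev, Fr.Sz_inl, Fr.Sz_root]
      | cons h' P'' => simp at hl
  | succ n ih =>
    intro f y P hP hl hD
    cases P with
    | nil => simp at hl
    | @cons _ v₁ _ h P' =>
      rw [Walk.length_cons] at hl
      rw [Walk.cons_isPath_iff] at hP
      obtain ⟨c, g, e, he, hev⟩ := Fr.exists_front_adj f v₁ h
      obtain ⟨y', hy', p, hpl, hps, hpp⟩ := walk_pull (G₁ := Fr.G c) (r₁ := Fr.ρ c)
        (G₂ := Fr.G g) (r₂ := Fr.ρ g) e he P' (Fr.ρ c) hev hP.2
      have hpP := hpp hP.1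
      have hDc : ∀ v ∈ p.support, v ≠ y' → D (Fr.G (Fr.cons c g)) (Sum.inl v) := by
        intro v hv hvy
        obtain ⟨z, hz, hze⟩ := hps v hv
        have h1 : D (Fr.G f) z := by
          refine hD z (by rw [Walk.support_cons]; exact List.mem_cons_of_mem _ hz) ?_ ?_
          · rintro rfl
            exact hP.2 hz
          · rintro rfl
            rw [hy'] at hze
            exact hvy (Sum.inl_injective hze).symm
        have h2 : D (Fr.G (Fr.cons c g)) (e z) := D_iso e h1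
        exact (congrArg (fun t : Fr.W (Fr.cons c g) => D (Fr.G (Fr.cons c g)) t) hze).mp h2
      obtain ⟨x, g', e', he', ⟨y'', hy''⟩, hSz⟩ := ih c y' p hpP (by omega)
        (fun v hv _ hvy => D_left (hDc v hv hvy))
      -- the root of `c` has only one neighbour in `c`
      have hρ : Fr.ρ c ≠ y' := by
        rintro rfl
        have h1 : p.length = 0 := by
          exact Walk.length_eq_zero_iff.2 (Walk.isPath_iff_nil.1 hpP)
        omega
      have hone : ∀ u₁ u₂, (Fr.G c).Adj (Fr.ρ c) u₁ → (Fr.G c).Adj (Fr.ρ c) u₂ → u₁ = u₂ :=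
        fun u₁ u₂ h1 h2 => D_root (hDc _ p.start_mem_support hρ) h1 h2
      have hg' : g' = Fr.nil := by
        cases g' with
        | nil => rfl
        | cons a b =>
          exfalso
          have h1 : (Fr.G (Fr.cons (exF n x) (Fr.cons a b))).Adj
              (Fr.ρ (Fr.cons (exF n x) (Fr.cons a b))) (Sum.inl (Fr.ρ (exF n x))) := ⟨rfl, rfl⟩
          have h2 : (Fr.G (Fr.cons (exF n x) (Fr.cons a b))).Adj
              (Fr.ρ (Fr.cons (exF n x) (Fr.cons a b))) (Sum.inr (Sum.inl (Fr.ρ a))) := ⟨rfl, rfl⟩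
          rw [← he'] at h1 h2
          obtain ⟨u₁, hu₁⟩ := e'.surjective (Sum.inl (Fr.ρ (exF n x)))
          obtain ⟨u₂, hu₂⟩ := e'.surjective (Sum.inr (Sum.inl (Fr.ρ a)))
          rw [← hu₁] at h1
          rw [← hu₂] at h2
          have h3 := hone u₁ u₂ (e'.map_adj_iff.1 h1) (e'.map_adj_iff.1 h2)
          rw [h3, hu₂] at hu₁
          exact Sum.inr_ne_inl hu₁
      subst hg'
      -- assemble
      have hjoin : Fr.Equ (Fr.cons c g) (Fr.cons (exF (n + 1) x) g) :=
        Fr.Equ.cons ⟨e', he'⟩ (Fr.Equ.refl g)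
      let E : Fr.G (Fr.cons c g) ≃g Fr.G (Fr.cons (exF (n + 1) x) g) :=
        joinCongr e' he' SimpleGraph.Iso.refl rfl
      refine ⟨x, g, e.trans E, ?_, ⟨e' y', ?_⟩, ?_⟩
      · show E (e (Fr.ρ f)) = _
        rw [he]
        rfl
      · have h1 : E (e y) = E (Sum.inl y') := congrArg (fun t : Fr.W (Fr.cons c g) => E t) hy'
        exact h1
      · have h1 : Fr.Sz f y = Fr.Sz (Fr.cons c g) (e y) := by
          unfold Fr.Sz
          rw [← card_blw_iso e, he]
        have h2 : Fr.Sz (Fr.cons c g) (e y) = Fr.Sz (Fr.cons c g) (Sum.inl y') :=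
          congrArg (fun t : Fr.W (Fr.cons c g) => Fr.Sz (Fr.cons c g) t) hy'
        rw [h1, h2, Fr.Sz_inl, hSz]

/-- **The theorem for graphs.** -/
theorem main_graph {V : Type} [Finite V] (T : SimpleGraph V) (hT : T.IsTree) (a b : V)
    (P : T.Walk a b) (hP : P.IsPath)
    (hdeg : ∀ v ∈ P.support, v ≠ a → v ≠ b → Nat.card (T.neighborSet v) = 2)
    (hA : Nat.card (blw T b a) ≤ P.length + 1) (hB : Nat.card (blw T a b) ≤ P.length + 1)
    (hA' : 2 * Nat.card (blw T b a) ≤ Nat.card V) (hB' : 2 * Nat.card (blw T a b) ≤ Nat.card V)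
    (V' : Type) [Finite V'] (T' : SimpleGraph V') (hT' : T'.IsTree) (hX : XEq T T') :
    Nonempty (T ≃g T') := by
  obtain ⟨f, e₀, he₀⟩ := exists_rep (Nat.card V) V T hT a rfl
  have hVpos : 0 < Nat.card V := by
    have : Nonempty V := ⟨a⟩
    exact Nat.card_pos
  -- the path is not trivial
  have hl : P.length ≠ 0 := by
    intro h0
    have hab : a = b := Walk.eq_of_length_eq_zero h0
    subst hab
    rw [blw_root, Nat.card_congr (Equiv.Set.univ _)] at hA'
    omega
  obtain ⟨k, hk⟩ : ∃ k, P.length = k + 1 := ⟨P.length - 1, by omega⟩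
  obtain ⟨q, hqs, hql⟩ : ∃ q : (Fr.G f).Walk (Fr.ρ f) (e₀ b),
      q.support = P.support.map e₀ ∧ q.length = P.length := by
    have h1 : (P.map e₀.toHom).support = P.support.map e₀ := Walk.support_map _ _
    have h2 : (P.map e₀.toHom).length = P.length := Walk.length_map _ _
    refine ⟨(P.map e₀.toHom).copy he₀ rfl, ?_, ?_⟩
    · rw [Walk.support_copy]; exact h1
    · rw [Walk.length_copy]; exact h2
  have hqP : q.IsPath := by
    rw [Walk.isPath_def, hqs]
    exact (List.nodup_map_iff e₀.injective).2 ((Walk.isPath_def _).1 hP)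
  obtain ⟨x, g, e₁, he₁, ⟨y', hy'⟩, hSz⟩ := bare_path k f (e₀ b) q hqP (by omega) (by
    intro v hv hvρ hvb
    rw [hqs, List.mem_map] at hv
    obtain ⟨z, hz, rfl⟩ := hv
    refine D_iso e₀ (D_of_card (hdeg z hz ?_ ?_))
    · rintro rfl
      exact hvρ he₀
    · rintro rfl
      exact hvb rfl)
  have hcB : Nat.card (blw T a b) = 1 + x.size := by
    rw [← hSz, ← card_blw_iso e₀ a b, he₀]
    rfl
  have hcA : Nat.card (blw T b a) = 1 + g.size := by
    have h1 : Nat.card (blw T b a) = Nat.card (blw (Fr.G (Fr.cons (exF k x) g)) (Sum.inl y')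
        (Fr.ρ (Fr.cons (exF k x) g))) := by
      rw [← card_blw_iso e₀ b a, ← card_blw_iso e₁ (e₀ b) (e₀ a), hy', he₀, he₁]
    rw [h1]
    have h2 := blw_from_left (G₁ := Fr.G (exF k x)) (r₁ := Fr.ρ (exF k x)) (G₂ := Fr.G g)
      (r₂ := Fr.ρ g) y' (fun z => (Fr.reach_root _ y').trans (Fr.reach_root _ z).symm)
    have h3 : blw (Fr.G (Fr.cons (exF k x) g)) (Sum.inl y') (Fr.ρ (Fr.cons (exF k x) g)) =
        Set.range Sum.inr := h2
    have h4 : Nat.card (Set.range (Sum.inr : Fr.W g → Fr.W (exF k x) ⊕ Fr.W g)) = 1 + g.size := by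
      rw [Nat.card_congr (Equiv.ofInjective _ Sum.inr_injective).symm, Nat.card_eq_fintype_card,
        Fr.card_W]
    exact (congrArg (fun s : Set (Fr.W (Fr.cons (exF k x) g)) => Nat.card s) h3).trans h4
  have hn : Nat.card V = 2 + x.size + g.size + k := by
    rw [Nat.card_congr (e₀.trans e₁).toEquiv, Nat.card_eq_fintype_card, Fr.card_W]
    simp only [Fr.size, exF_size]
    omega
  -- the other tree
  obtain ⟨d⟩ : Nonempty V' := hT'.connected.nonempty
  obtain ⟨f', e', _⟩ := exists_rep (Nat.card V') V' T' hT' d rfl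
  have hX' : XEq (Fr.G (Fr.cons (exF k x) g)) (Fr.G f') := XEq.of_iso (e₀.trans e₁) e' hX
  obtain ⟨E⟩ := main_fr (by omega) (by omega) (by omega) (by omega) f' hX'
  exact ⟨((e₀.trans e₁).trans E).trans e'.symm⟩

end Pool.MP_1af41f_co.BPT
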