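import Pool.Agent.BPT.Alg

set_option autoImplicit false

/-!
# Trees with a long bare path, given by forests

`G (cons (exF L x) g)` is the tree obtained from the rooted trees with children forests `x`, `g` by
joining the roots by a path with `L` interior vertices.
-/

namespace Pool.MP_1af41f_co.BPT

open Polynomial Pool.MP_1af41f_co.CSF
open scoped Classical

/-! ### Extensions by paths -/

lemma exF_exF (i j : ℕ) (a : Fr) : exF i (exF j a) = exF (i + j) a := by
  induction i with
  | zero => rw [Nat.zero_add]; rfl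
  | succ i ih =>
    rw [show i + 1 + j = (i + j) + 1 by omega]
    show Fr.cons (exF i (exF j a)) Fr.nil = Fr.cons (exF (i + j) a) Fr.nil
    rw [ih]

lemma exF_congr (i : ℕ) {a b : Fr} (h : Fr.Equ a b) : Fr.Equ (exF i a) (exF i b) := by
  induction i with
  | zero => exact h
  | succ i ih => exact Fr.Equ.cons ih (Fr.Equ.refl _)

lemma size_eq_zero {f : Fr} (h : f.size = 0) : f = Fr.nil := by
  cases f with
  | nil => rfl
  | cons a b => simp only [Fr.size] at h; omega

/-- isomorphism of the underlying trees -/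
def Iso (f g : Fr) : Prop := Nonempty (Fr.G f ≃g Fr.G g)

lemma Iso.refl (f : Fr) : Iso f f := ⟨SimpleGraph.Iso.refl⟩

lemma Iso.symm {f g : Fr} (h : Iso f g) : Iso g f := h.elim fun e => ⟨e.symm⟩

lemma Iso.trans {f g h : Fr} (h₁ : Iso f g) (h₂ : Iso g h) : Iso f h :=
  h₁.elim fun e₁ => h₂.elim fun e₂ => ⟨e₁.trans e₂⟩

lemma Iso.of_equ {f g : Fr} (h : Fr.Equ f g) : Iso f g := by
  obtain ⟨e, _⟩ := h
  exact ⟨e⟩

lemma Iso.reroot (a b : Fr) : Iso (Fr.cons a b) (Fr.cons b a) := Fr.reroot a b

lemma iso_move_one (a b : Fr) : Iso (Fr.cons (Fr.cons a Fr.nil) b) (Fr.cons a (Fr.cons b Fr.nil)) :=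
  (Iso.reroot (Fr.cons a Fr.nil) b).trans (Iso.of_equ (Fr.Equ.swap b a Fr.nil))

lemma iso_move (i j k : ℕ) (a b : Fr) :
    Iso (Fr.cons (exF (i + k) a) (exF j b)) (Fr.cons (exF i a) (exF (j + k) b)) := by
  induction k generalizing j with
  | zero => exact Iso.refl _
  | succ k ih =>
    refine Iso.trans (iso_move_one (exF (i + k) a) (exF j b)) ?_
    have h := ih (j + 1)
    rwa [show j + 1 + k = j + (k + 1) by omega] at h

/-- all positions of the root on the path give isomorphic trees -/
lemma iso_slide {i j i' j' : ℕ} (h : i + j = i' + j') (a b : Fr) :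
    Iso (Fr.cons (exF i a) (exF j b)) (Fr.cons (exF i' a) (exF j' b)) := by
  have h1 := iso_move i 0 j a b
  have h2 := iso_move i' 0 j' a b
  have h3 : Iso (Fr.cons (exF (i + j) a) (exF 0 b)) (Fr.cons (exF i a) (exF j b)) := by
    have := iso_move i 0 j a b
    rwa [Nat.zero_add] at this
  have h4 : Iso (Fr.cons (exF (i' + j') a) (exF 0 b)) (Fr.cons (exF i' a) (exF j' b)) := by
    have := iso_move i' 0 j' a b
    rwa [Nat.zero_add] at this
  rw [h] at h3
  exact h3.symm.trans h4

/-- the two ends can be exchanged -/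
lemma iso_flip {i j i' j' : ℕ} (h : i + j = i' + j') (a b : Fr) :
    Iso (Fr.cons (exF i a) (exF j b)) (Fr.cons (exF i' b) (exF j' a)) :=
  (Iso.reroot (exF i a) (exF j b)).trans (iso_slide (by omega) b a)

lemma Iso.cons_congr {a a' b b' : Fr} (h₁ : Fr.Equ a a') (h₂ : Fr.Equ b b') :
    Iso (Fr.cons a b) (Fr.cons a' b') := Iso.of_equ (Fr.Equ.cons h₁ h₂)

/-! ### Fringe numbers -/

lemma N_exF (w t : ℕ) (a : Fr) :
    (exF t a).N w = a.N w + (if a.size < w ∧ w ≤ a.size + t then 1 else 0) := by
  induction t with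
  | zero => rw [if_neg (by omega)]; rfl
  | succ t ih =>
    have h1 : (exF (t + 1) a).N w = (if 1 + (exF t a).size = w then 1 else 0) + (exF t a).N w + 0 :=
      rfl
    rw [h1, ih, exF_size]
    by_cases h2 : 1 + (a.size + t) = w
    · rw [if_pos h2, if_neg (by omega), if_pos (by omega)]; omega
    · rw [if_neg h2]
      by_cases h3 : a.size < w ∧ w ≤ a.size + t
      · rw [if_pos h3, if_pos (by omega)]; omega
      · rw [if_neg h3, if_neg (by omega)]; omega

/-- a forest with a fringe subtree containing all its vertices is a single tree -/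
lemma eq_cons_of_N {f : Fr} (h : 1 ≤ f.N f.size) : ∃ c, f = Fr.cons c Fr.nil := by
  cases f with
  | nil => rw [Fr.N_nil] at h; omega
  | cons c d =>
    refine ⟨c, ?_⟩
    have hs : (Fr.cons c d).size = 1 + c.size + d.size := rfl
    rw [hs, Fr.N_cons, Fr.NT, Fr.N_eq_zero_of_lt (f := c) (by omega),
      Fr.N_eq_zero_of_lt (f := d) (by omega)] at h
    by_cases h1 : 1 + c.size = 1 + c.size + d.size
    · rw [size_eq_zero (show d.size = 0 by omega)]
    · rw [if_neg h1] at h
      omega

lemma N_size_le_one (f : Fr) : f.N f.size ≤ 1 := by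
  cases f with
  | nil => simp [Fr.N_nil]
  | cons c d => exact Fr.N_le_one (by simp only [Fr.size]; omega)

/-- the path at the root stripped off -/
lemma exists_strip (n : ℕ) : ∀ x : Fr, x.size = n → ∃ p x₀, x = exF p x₀ ∧
    (x₀ = Fr.nil ∨ x₀.N x₀.size = 0) := by
  induction n using Nat.strong_induction_on with
  | _ n ih =>
    intro x hx
    by_cases h : 1 ≤ x.N x.size
    · obtain ⟨c, rfl⟩ := eq_cons_of_N h
      obtain ⟨p, x₀, h1, h2⟩ := ih c.size (by simp only [Fr.size] at hx; omega) c rfl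
      exact ⟨p + 1, x₀, by rw [h1]; rfl, h2⟩
    · exact ⟨0, x, rfl, Or.inr (by omega)⟩

/-- number of vertices with fewer than `β` vertices below -/
def sm (β : ℕ) (f : Fr) : ℕ := ∑ v ∈ Finset.range β, f.N v

lemma sm_nil (β : ℕ) : sm β Fr.nil = 0 := by
  unfold sm
  exact Finset.sum_eq_zero fun _ _ => rfl

lemma sm_cons (β : ℕ) (a b : Fr) :
    sm β (Fr.cons a b) = (if 1 + a.size < β then 1 else 0) + sm β a + sm β b := by
  unfold sm
  have h1 : ∀ v ∈ Finset.range β, (Fr.cons a b).N v =
      (if 1 + a.size = v then 1 else 0) + a.N v + b.N v := fun v _ => rfl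
  rw [Finset.sum_congr rfl h1, Finset.sum_add_distrib, Finset.sum_add_distrib, Finset.sum_ite_eq]
  simp only [Finset.mem_range]

lemma le_sm (β : ℕ) (f : Fr) : min f.size (β - 1) ≤ sm β f := by
  induction f with
  | nil => simp [Fr.size]
  | cons c d ihc ihd =>
    rw [sm_cons]
    simp only [Fr.size]
    split_ifs with h <;> omega

lemma sm_of_size_lt (β : ℕ) (f : Fr) (h : f.size < β) : sm β f = f.size := by
  induction f with
  | nil => exact sm_nil β
  | cons c d ihc ihd =>
    simp only [Fr.size] at h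
    rw [sm_cons, if_pos (by omega), ihc (by omega), ihd (by omega)]
    rfl

/-- a forest with only `β - 1` vertices below which there are fewer than `β` vertices ends in a
path at the root -/
lemma exists_exF_of_sm (β : ℕ) (hβ : 2 ≤ β) (t : ℕ) : ∀ f : Fr, f.size = β - 1 + t →
    sm β f = β - 1 → ∃ g, f = exF t g := by
  induction t with
  | zero => intro f _ _; exact ⟨f, rfl⟩
  | succ t ih =>
    intro f hf hs
    cases f with
    | nil => simp only [Fr.size] at hf; omega
    | cons c d =>
      rw [sm_cons] at hs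
      simp only [Fr.size] at hf
      have hc := le_sm β c
      have hd := le_sm β d
      by_cases h1 : 1 + c.size < β
      · exfalso
        rw [if_pos h1] at hs
        omega
      · rw [if_neg h1] at hs
        have hd0 : d.size = 0 := by omega
        have hd' := size_eq_zero hd0
        subst hd'
        rw [sm_nil] at hs
        obtain ⟨g, hg⟩ := ih c (by omega) (by omega)
        exact ⟨g, by rw [hg]; rfl⟩

/-! ### Derivatives of `Hu` -/

/-- the value of the derivative of the extreme coefficients of `Hu a` -/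
noncomputable def nu (w : ℕ) (a : Fr) : R := if w ≤ a.size then (a.N w : R) - 1 else 0

lemma DLP_Hu (w : ℕ) (hw : 0 < w) (a : Fr) : DLP (cd w (Hu a)) a.size w (nu w a) := by
  refine ⟨fun i hi => ?_, fun i hi => ?_, fun h => ?_⟩
  · rw [cd_coeff]
    exact (pderiv_Hu a w hw i).1 hi
  · rw [cd_coeff, (pderiv_Hu a w hw i).2 hi, nu, if_pos (by omega)]
  · rw [nu, if_neg (by omega)]

lemma DLP_Hu_mul (w : ℕ) (hw : 0 < w) (a b : Fr) :
    DLP (cd w (Hu a * Hu b)) (a.size + b.size) w (nu w a + nu w b) := by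
  rw [cd_mul]
  have h1 := (DLP_Hu w hw a).mul_monic (Q := Hu b) (m' := b.size)
    (fun i hi => Hu_coeff_gt b hi) (Hu_coeff_size b)
  have h2 := (DLP_Hu w hw b).mul_monic (Q := Hu a) (m' := a.size)
    (fun i hi => Hu_coeff_gt a hi) (Hu_coeff_size a)
  rw [mul_comm (Hu a) (cd w (Hu b))]
  rw [add_comm b.size a.size] at h2
  exact h1.add h2

lemma Hu_mul_free (a b : Fr) {j : ℕ} (ha : a.size < j) (hb : b.size < j) (k : ℕ) :
    MvPolynomial.pderiv j ((Hu a * Hu b).coeff k) = 0 := by
  rw [← cd_coeff, cd_mul, coeff_add, coeff_mul, coeff_mul, Finset.sum_eq_zero, Finset.sum_eq_zero,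
    add_zero]
  · intro x _
    rw [cd_coeff, Hu_free b hb, mul_zero]
  · intro x _
    rw [cd_coeff, Hu_free a ha, zero_mul]

/-- extraction for two pairs of forests of bounded size -/
lemma extract_pair {a b a' b' : Fr} {s e : ℕ} (ha : a.size ≤ s) (hb : b.size ≤ s)
    (ha' : a'.size ≤ s) (hb' : b'.size ≤ s)
    (h : psi (X ^ e * (Hu a * Hu b - Hu a' * Hu b')) = 0) :
    ∀ k, s ≤ k + e + 1 → (Hu a * Hu b - Hu a' * Hu b').coeff k = 0 := by
  intro k hk
  refine extract _ e (s + 1) ?_ h k (by omega)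
  intro k j hj
  rw [coeff_sub, map_sub, Hu_mul_free a b (by omega) (by omega),
    Hu_mul_free a' b' (by omega) (by omega), sub_zero]

/-- the sums of the fringe numbers agree -/
lemma nu_add_eq {a b a' b' : Fr} (hs : a.size + b.size = a'.size + b'.size) {w : ℕ} (hw : 0 < w)
    (hws : w ≤ a.size + b.size)
    (h : (Hu a * Hu b - Hu a' * Hu b').coeff (a.size + b.size - w) = 0) :
    nu w a + nu w b = nu w a' + nu w b' := by
  have h1 := (DLP_Hu_mul w hw a b).2.1 (a.size + b.size - w) (by omega)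
  have h2 := (DLP_Hu_mul w hw a' b').2.1 (a.size + b.size - w) (by omega)
  rw [← h1, ← h2, cd_coeff, cd_coeff]
  rw [coeff_sub, sub_eq_zero] at h
  rw [h]

lemma nu_exF {w t : ℕ} (a : Fr) (hw : w ≤ a.size) : nu w (exF t a) = nu w a := by
  unfold nu
  rw [exF_size, if_pos (by omega), if_pos hw, N_exF, if_neg (by omega), add_zero]

lemma nu_exF_gt {w t : ℕ} (a : Fr) (hw : a.size < w) : nu w (exF t a) = 0 := by
  unfold nu
  by_cases h : w ≤ a.size + t
  · rw [exF_size, if_pos h, N_exF, if_pos (by omega), Fr.N_eq_zero_of_lt hw]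
    simp
  · rw [exF_size, if_neg h]

/-! ### The main argument -/

/-- from the derivative of order `s` -/
lemma cd_Hu_top {a : Fr} (hs : 0 < a.size) : cd a.size (Hu a) = C ((a.N a.size : R) - 1) := by
  ext1 k
  rw [cd_coeff]
  rcases Nat.eq_zero_or_pos k with rfl | hk
  · rw [coeff_C_zero]
    exact (pderiv_Hu a a.size hs 0).2 (by omega)
  · rw [coeff_C_of_ne_zero (by omega)]
    exact (pderiv_Hu a a.size hs k).1 (by omega)

lemma core_equal {a b a' b' : Fr} {s : ℕ} (hs : 0 < s) (ha : a.size = s) (hb : b.size = s)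
    (ha' : a'.size = s) (hb' : b'.size = s) (hNa : a.N s = 0) (hNb : b.N s = 0)
    (hN : a.N s + b.N s = a'.N s + b'.N s) {e : ℕ} (he : s ≤ e + 1)
    (h : psi (X ^ e * (Hu a * Hu b - Hu a' * Hu b')) = 0) :
    (Hu a = Hu a' ∧ Hu b = Hu b') ∨ (Hu a = Hu b' ∧ Hu b = Hu a') := by
  have hQ : Hu a * Hu b - Hu a' * Hu b' = 0 := by
    ext1 k
    rw [coeff_zero]
    exact extract_pair ha.le hb.le ha'.le hb'.le h k (by omega)
  have hNa' : a'.N s = 0 := by omega
  have hNb' : b'.N s = 0 := by omega
  have key : ∀ c : Fr, c.size = s → c.N s = 0 → cd s (Hu c) = -1 := by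
    intro c hc hN
    subst hc
    rw [cd_Hu_top hs, hN]
    simp
  have h1 := congrArg (cd s) hQ
  rw [cd_zero, cd_sub, cd_mul, cd_mul, key a ha hNa, key b hb hNb, key a' ha' hNa',
    key b' hb' hNb'] at h1
  have h2 : Hu b + Hu a = Hu b' + Hu a' := by linear_combination - h1
  have h3 : (Hu a - Hu a') * (Hu a - Hu b') = 0 := by
    have : Hu b = Hu b' + Hu a' - Hu a := by linear_combination h2
    rw [this] at hQ
    linear_combination - hQ
  rcases mul_eq_zero.1 h3 with h4 | h4
  · left
    have h5 : Hu a = Hu a' := sub_eq_zero.1 h4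
    exact ⟨h5, by rw [h5] at h2; exact add_right_cancel h2⟩
  · right
    have h5 : Hu a = Hu b' := sub_eq_zero.1 h4
    refine ⟨h5, ?_⟩
    rw [h5, add_comm (Hu b')] at h2
    exact add_right_cancel h2

/-- `Hu a` is determined by the upper coefficients of `Hu a * Hu b` -/
lemma Hu_eq_of_mul {a a' b : Fr} {s : ℕ} (hb : b.size = s) {t : ℕ} (ht : t ≤ s)
    (h : ∀ k, t ≤ k → ((Hu a - Hu a') * Hu b).coeff k = 0) : Hu a = Hu a' := by
  by_contra hne
  have hne' : Hu a - Hu a' ≠ 0 := sub_ne_zero.2 hne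
  have h1 : ((Hu a - Hu a') * Hu b).natDegree = (Hu a - Hu a').natDegree + s := by
    rw [natDegree_mul hne' (Hu_monic b).ne_zero, Hu_natDegree, hb]
  have h2 : (Hu a - Hu a') * Hu b ≠ 0 := mul_ne_zero hne' (Hu_monic b).ne_zero
  have h3 := leadingCoeff_ne_zero.2 h2
  apply h3
  unfold leadingCoeff
  rw [h1]
  exact h _ (by omega)

lemma core_unequal_aux {a a' b' g : Fr} {s β : ℕ} (hβ : 2 ≤ β) (hβs : β ≤ s)
    (hg : g.size + 1 = β) (ha : a.size = s)
    (ha' : a'.size = s) (hb' : b'.size = s) (hNa : a.N s = 0) (hNa' : a'.N s = 0)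
    (hNb' : b'.N s = 1) {e : ℕ} (he : β ≤ e + 2)
    (h : psi (X ^ e * (Hu a * Hu (exF (s + 1 - β) g) - Hu a' * Hu b')) = 0) :
    Hu a = Hu a' ∧ Hu (exF (s + 1 - β) g) = Hu b' := by
  set b := exF (s + 1 - β) g with hbdef
  have hb : b.size = s := by rw [hbdef, exF_size]; omega
  have hNb : b.N s = 1 := by
    rw [hbdef, N_exF, Fr.N_eq_zero_of_lt (by omega), if_pos (by omega)]
  have hQ := extract_pair ha.le hb.le ha'.le hb'.le h
  -- the derivative of order `s`
  have key : ∀ c : Fr, c.size = s → cd s (Hu c) = C ((c.N s : R) - 1) := by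
    intro c hc
    subst hc
    exact cd_Hu_top (by omega)
  have h1 : cd s (Hu a * Hu b - Hu a' * Hu b') = Hu b' - Hu b := by
    rw [cd_sub, cd_mul, cd_mul, key a ha, key b hb, key a' ha', key b' hb', hNa, hNb, hNa', hNb']
    simp
    ring
  have h2 : ∀ k, s + 1 ≤ k + β → (Hu b').coeff k = (Hu b).coeff k := by
    intro k hk
    have h3 := congrArg (fun q => Polynomial.coeff q k) h1
    simp only [coeff_sub, cd_coeff] at h3
    have h4 := hQ k (by omega)
    rw [coeff_sub] at h4
    rw [h4, map_zero] at h3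
    exact (sub_eq_zero.1 h3.symm)
  -- the fringe numbers of `b'`
  have h5 : ∀ v ∈ Finset.range β, b'.N v = b.N v := by
    intro v hv
    rw [Finset.mem_range] at hv
    rcases Nat.eq_zero_or_pos v with rfl | hv0
    · have hz : ∀ f : Fr, f.N 0 = 0 := by
        intro f
        induction f with
        | nil => rfl
        | cons c d ihc ihd =>
          rw [Fr.N_cons, Fr.NT, ihc, ihd, if_neg (by omega)]
      rw [hz, hz]
    · have h6 := congrArg (MvPolynomial.pderiv v) (h2 (s - v) (by omega))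
      rw [(pderiv_Hu b' v hv0 (s - v)).2 (by omega), (pderiv_Hu b v hv0 (s - v)).2 (by omega)] at h6
      have h7 : ((b'.N v : ℕ) : R) = ((b.N v : ℕ) : R) := sub_left_injective h6
      exact_mod_cast h7
  have h6 : sm β b' = β - 1 := by
    have h7 : sm β b' = sm β b := Finset.sum_congr rfl h5
    have h8 : sm β b = sm β g := by
      refine Finset.sum_congr rfl fun v hv => ?_
      rw [Finset.mem_range] at hv
      rw [hbdef, N_exF, if_neg (by omega), add_zero]
    rw [h7, h8, sm_of_size_lt β g (by omega)]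
    omega
  obtain ⟨g', hg'⟩ := exists_exF_of_sm β hβ (s + 1 - β) b' (by omega) h6
  have h7 : Hu b = Hu b' := by
    ext1 k
    rcases Nat.lt_or_ge k (s + 1 - β) with hk | hk
    · rw [hbdef, hg', Hu_exF, Hu_exF, coeff_X_pow_mul', coeff_X_pow_mul', if_neg (by omega),
        if_neg (by omega)]
    · exact (h2 k (by omega)).symm
  refine ⟨Hu_eq_of_mul hb (t := s + 1 - β) (by omega) ?_, h7⟩
  intro k hk
  have h8 := hQ k (by omega)
  rw [← h7] at h8
  rw [sub_mul]
  exact h8

lemma core_unequal {a a' b' g : Fr} {s β : ℕ} (hβ : 2 ≤ β) (hβs : β ≤ s)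
    (hg : g.size + 1 = β) (ha : a.size = s)
    (ha' : a'.size = s) (hb' : b'.size = s) (hNa : a.N s = 0)
    (hN : a.N s + (exF (s + 1 - β) g).N s = a'.N s + b'.N s) {e : ℕ} (he : β ≤ e + 2)
    (h : psi (X ^ e * (Hu a * Hu (exF (s + 1 - β) g) - Hu a' * Hu b')) = 0) :
    (Hu a = Hu a' ∧ Hu (exF (s + 1 - β) g) = Hu b') ∨
      (Hu a = Hu b' ∧ Hu (exF (s + 1 - β) g) = Hu a') := by
  have hNb : (exF (s + 1 - β) g).N s = 1 := by
    rw [N_exF, Fr.N_eq_zero_of_lt (by omega), if_pos (by omega)]
  rw [hNa, hNb] at hN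
  have h1 := N_size_le_one a'
  have h2 := N_size_le_one b'
  rw [ha'] at h1
  rw [hb'] at h2
  by_cases h3 : a'.N s = 0
  · left
    exact core_unequal_aux hβ hβs hg ha ha' hb' hNa h3 (by omega) he h
  · right
    rw [mul_comm (Hu a') (Hu b')] at h
    exact core_unequal_aux hβ hβs hg ha hb' ha' hNa (by omega) (by omega) he h

/-- peeling the other tree -/
lemma peel {A1 B1 A2 B2 : Fr} {s α γ : ℕ}
    (hA2 : A2.size = α) (hB2 : B2.size = γ) (hαγ : α ≤ γ) (hγα : γ ≤ α + 1) (hs : s ≤ α)
    (hA1 : ∀ w, s < w → nu w A1 = 0) (hB1 : ∀ w, s < w → nu w B1 = 0)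
    (h : ∀ w, 0 < w → w ≤ α + 1 → nu w A1 + nu w B1 = nu w A2 + nu w B2) :
    ∀ t, t ≤ α - s → ∃ a b, A2 = exF t a ∧ B2 = exF (t + (γ - α)) b ∧ a.size = α - t ∧
      b.size = α - t := by
  intro t
  induction t with
  | zero =>
    intro _
    rcases Nat.eq_or_lt_of_le hαγ with h1 | h1
    · exact ⟨A2, B2, rfl, by rw [← h1, Nat.sub_self]; rfl, by omega, by omega⟩
    · have h2 : γ = α + 1 := by omega
      have h3 := h (α + 1) (by omega) le_rfl
      rw [hA1 _ (by omega), hB1 _ (by omega)] at h3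
      have h4 : nu (α + 1) A2 = 0 := by rw [nu, if_neg (by omega)]
      rw [h4, nu, if_pos (by omega), zero_add, zero_add] at h3
      have h5 : ((B2.N (α + 1) : ℕ) : R) = ((1 : ℕ) : R) := by
        rw [Nat.cast_one]
        exact (sub_eq_zero.1 h3.symm)
      have h6 : B2.N (α + 1) = 1 := by exact_mod_cast h5
      obtain ⟨c, hc⟩ := eq_cons_of_N (f := B2) (by rw [hB2, h2, h6])
      refine ⟨A2, c, rfl, ?_, by omega, ?_⟩
      · rw [h2, show 0 + (α + 1 - α) = 0 + 1 by omega]
        exact hc
      · rw [hc] at hB2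
        simp only [Fr.size] at hB2
        omega
  | succ t ih =>
    intro ht
    obtain ⟨a, b, ha, hb, has, hbs⟩ := ih (by omega)
    have h3 := h (α - t) (by omega) (by omega)
    rw [hA1 _ (by omega), hB1 _ (by omega), ha, hb, nu_exF a (by omega), nu_exF b (by omega), nu,
      nu, if_pos (by omega), if_pos (by omega), add_zero] at h3
    have h4 : (((a.N (α - t) + b.N (α - t)) : ℕ) : R) = ((2 : ℕ) : R) := by
      push_cast
      linear_combination - h3
    have h5 : a.N (α - t) + b.N (α - t) = 2 := by exact_mod_cast h4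
    have h6 := N_size_le_one a
    have h7 := N_size_le_one b
    rw [has] at h6
    rw [hbs] at h7
    obtain ⟨c, hc⟩ := eq_cons_of_N (f := a) (by rw [has]; omega)
    obtain ⟨d, hd⟩ := eq_cons_of_N (f := b) (by rw [hbs]; omega)
    refine ⟨c, d, ?_, ?_, ?_, ?_⟩
    · rw [ha, hc]
      exact exF_exF t 1 c
    · rw [hb, hd, show t + 1 + (γ - α) = (t + (γ - α)) + 1 by omega]
      exact exF_exF (t + (γ - α)) 1 d
    · rw [hc] at has
      simp only [Fr.size] at has
      omega
    · rw [hd] at hbs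
      simp only [Fr.size] at hbs
      omega

/-- a tree with the same `U`-polynomial has a central edge with the same sides, and long paths at
both ends -/
lemma exists_other {a b : Fr} {s i j : ℕ} (ha : a.size = s) (hb : b.size = s) (hij : i ≤ j)
    (hji : j ≤ i + 1) (f₂ : Fr) (hX : XEq (Fr.G (Fr.cons (exF i a) (exF j b))) (Fr.G f₂)) :
    ∃ a' b' : Fr, a'.size = s ∧ b'.size = s ∧ Iso f₂ (Fr.cons (exF i a') (exF j b')) ∧
      psi (X ^ (i + j) * (Hu a * Hu b - Hu a' * Hu b')) = 0 ∧
      (0 < s → a.N s + b.N s = a'.N s + b'.N s) := by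
  obtain ⟨f', ⟨e'⟩, hf'⟩ := exists_centroid f₂
  have hX' : XEq (Fr.G (Fr.cons (exF i a) (exF j b))) (Fr.G f') :=
    hX.of_iso SimpleGraph.Iso.refl e'
  have hsz := size_eq hX'
  have hsz1 : (Fr.cons (exF i a) (exF j b)).size = 1 + (s + i) + (s + j) := by
    simp only [Fr.size, exF_size, ha, hb]
  -- a branch of size `1 + s + i`
  have hA : ∃ c ∈ f'.toList, 1 + c.size = 1 + (s + i) := by
    by_contra hcon
    push Not at hcon
    have h1 : ∀ c ∈ f'.toList, 1 + c.size ≤ s + i := by
      intro c hc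
      have h2 := hf' c hc
      have h3 := hcon c hc
      omega
    have h2 := branch_le hX'.symm h1 (by
      intro c hc
      rw [hsz1]
      simp only [Fr.toList, List.mem_cons] at hc
      rcases hc with rfl | hc
      · rw [exF_size]; omega
      · have := mem_toList_size hc
        rw [exF_size] at this
        omega) (exF i a) (by simp [Fr.toList])
    rw [exF_size] at h2
    omega
  obtain ⟨A2, hA2, hA2s⟩ := hA
  obtain ⟨B2, hB2⟩ := Fr.exists_front hA2
  have hI : Iso f₂ (Fr.cons A2 B2) :=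
    Iso.trans ⟨e'⟩ (Iso.of_equ (Fr.Equ.of_toList_perm hB2))
  have hA2s' : A2.size = s + i := by omega
  have hB2s : B2.size = s + j := by
    have h1 := Fr.size_perm hB2
    simp only [Fr.size] at h1
    omega
  have hX2 : XEq (Fr.G (Fr.cons (exF i a) (exF j b))) (Fr.G (Fr.cons A2 B2)) := by
    obtain ⟨e⟩ := hI
    exact hX.of_iso SimpleGraph.Iso.refl e
  have hU := phi_Pi_eq hX2 gen
  rw [U_edge, U_edge] at hU
  have hpsi : psi (X ^ 0 * (Hu (exF i a) * Hu (exF j b) - Hu A2 * Hu B2)) = 0 := by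
    rw [pow_zero, one_mul, psi_sub, hU, sub_self]
  have hco := extract_pair (s := s + j) (by rw [exF_size]; omega) (by rw [exF_size]; omega)
    (by omega) (by omega) hpsi
  have hnu : ∀ w, 0 < w → w ≤ s + i + 1 →
      nu w (exF i a) + nu w (exF j b) = nu w A2 + nu w B2 := by
    intro w hw hw'
    rcases Nat.lt_or_ge (2 * s + i + j) w with h1 | h1
    · have : s = 0 ∧ i = 0 ∧ j = 0 := by omega
      simp only [nu, exF_size]
      rw [if_neg (by omega), if_neg (by omega), if_neg (by omega), if_neg (by omega)]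
    · refine nu_add_eq (by simp only [exF_size]; omega) hw (by simp only [exF_size]; omega) ?_
      refine hco _ ?_
      simp only [exF_size]
      omega
  obtain ⟨a', b', h1, h2, h3, h4⟩ := peel (s := s) hA2s' hB2s (by omega) (by omega) (by omega)
    (fun w hw => nu_exF_gt a (by omega)) (fun w hw => nu_exF_gt b (by omega)) hnu i (by omega)
  rw [show i + (s + j - (s + i)) = j by omega] at h2
  refine ⟨a', b', by omega, by omega, ?_, ?_, ?_⟩
  · rw [h1, h2] at hI
    exact hI
  · rw [h1, h2, Hu_exF, Hu_exF, Hu_exF, Hu_exF] at hpsi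
    have h5 : X ^ (i + j) * (Hu a * Hu b - Hu a' * Hu b') =
        X ^ 0 * (X ^ i * Hu a * (X ^ j * Hu b) - X ^ i * Hu a' * (X ^ j * Hu b')) := by
      rw [pow_zero, one_mul, pow_add]
      ring
    rw [h5]
    exact hpsi
  · intro hs
    have h5 := hnu s hs (by omega)
    rw [h1, h2, nu_exF a (by omega), nu_exF b (by omega), nu_exF a' (by omega),
      nu_exF b' (by omega)] at h5
    unfold nu at h5
    rw [if_pos (by omega), if_pos (by omega), if_pos (by omega), if_pos (by omega)] at h5
    have h6 : (((a.N s + b.N s) : ℕ) : R) = (((a'.N s + b'.N s) : ℕ) : R) := by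
      push_cast
      linear_combination h5
    exact_mod_cast h6

lemma equ_of_Hu_eq {a b : Fr} (h : Hu a = Hu b) : Fr.Equ a b :=
  equ_of_Pi_eq a.size a b rfl (Pi_eq_of_Hu_eq h)

/-- conclusion from the equality of the path coordinates -/
lemma iso_of_Hu {a b a' b' : Fr} {i j : ℕ}
    (h : (Hu a = Hu a' ∧ Hu b = Hu b') ∨ (Hu a = Hu b' ∧ Hu b = Hu a')) :
    Iso (Fr.cons (exF i a) (exF j b)) (Fr.cons (exF i a') (exF j b')) := by
  rcases h with ⟨h1, h2⟩ | ⟨h1, h2⟩
  · exact Iso.cons_congr (exF_congr i (equ_of_Hu_eq h1)) (exF_congr j (equ_of_Hu_eq h2))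
  · refine Iso.trans (Iso.cons_congr (exF_congr i (equ_of_Hu_eq h1))
      (exF_congr j (equ_of_Hu_eq h2))) ?_
    exact iso_flip rfl b' a'

/-- the two ends minimal, `x` the larger one -/
lemma main_min {x g : Fr} {L : ℕ} (hx : x = Fr.nil ∨ x.N x.size = 0)
    (hg : g = Fr.nil ∨ g.N g.size = 0) (hgx : g.size ≤ x.size) (h1 : x.size ≤ L + 1)
    (h2 : x.size ≤ L + g.size) (f₂ : Fr) (hX : XEq (Fr.G (Fr.cons (exF L x) g)) (Fr.G f₂)) :
    Iso (Fr.cons (exF L x) g) f₂ := by
  set s := x.size with hs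
  -- the normal form
  set b := exF (s - g.size) g with hb
  have hbs : b.size = s := by rw [hb, exF_size]; omega
  set e := L + g.size - s with he
  set i := e / 2 with hi
  set j := e - e / 2 with hj
  have hiso : Iso (Fr.cons (exF L x) g) (Fr.cons (exF i x) (exF j b)) := by
    have := iso_slide (i := L) (j := 0) (i' := i) (j' := j + (s - g.size)) (by omega) x g
    rw [hb, exF_exF]
    exact this
  have hX1 : XEq (Fr.G (Fr.cons (exF i x) (exF j b))) (Fr.G f₂) := by
    obtain ⟨E⟩ := hiso
    exact hX.of_iso E SimpleGraph.Iso.refl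
  obtain ⟨a', b', ha', hb', hf₂, hpsi, hN⟩ := exists_other hs.symm hbs (by omega) (by omega) f₂ hX1
  refine (hiso.trans ?_).trans hf₂.symm
  rcases Nat.eq_zero_or_pos s with hs0 | hs0
  · rw [size_eq_zero (f := x) (by omega), size_eq_zero (f := b) (by omega),
      size_eq_zero (f := a') (by omega), size_eq_zero (f := b') (by omega)]
    exact Iso.refl _
  · have hxN : x.N s = 0 := by
      rcases hx with hx | hx
      · exfalso
        rw [hx] at hs
        simp only [Fr.size] at hs
        omega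
      · exact hx
    apply iso_of_Hu
    rcases Nat.lt_or_ge g.size s with hlt | hge
    · -- the second end is smaller
      have hs2 : 2 ≤ s := by
        by_contra hcon
        have hs1 : s = 1 := by omega
        obtain ⟨c, d, rfl⟩ : ∃ c d, x = Fr.cons c d := by
          cases x with
          | nil => simp only [Fr.size] at hs; omega
          | cons c d => exact ⟨c, d, rfl⟩
        have h3 := le_sm 2 (Fr.cons c d)
        have h4 : sm 2 (Fr.cons c d) = (Fr.cons c d).N 0 + (Fr.cons c d).N 1 := by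
          simp [sm, Finset.sum_range_succ]
        have h5 : (Fr.cons c d).N 0 = 0 := by
          have hz : ∀ f : Fr, f.N 0 = 0 := by
            intro f
            induction f with
            | nil => rfl
            | cons c d ihc ihd =>
              rw [Fr.N_cons, Fr.NT, ihc, ihd, if_neg (by omega)]
          exact hz _
        rw [← hs, hs1] at h3
        rw [hs1] at hxN
        simp at h3
        omega
      rcases Nat.eq_zero_or_pos g.size with hg0 | hg0
      · have hgn := size_eq_zero hg0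
        have hb2 : b = exF (s + 1 - 2) (Fr.cons Fr.nil Fr.nil) := by
          rw [hb, hgn]
          have := exF_exF (s - 1) 1 Fr.nil
          rw [show s - Fr.nil.size = (s - 1) + 1 by simp only [Fr.size]; omega, ← this]
          rfl
        rw [hb2] at hpsi hN ⊢
        exact core_unequal (β := 2) le_rfl hs2 (by simp [Fr.size]) hs.symm ha' hb' hxN (hN hs0)
          (by omega) hpsi
      · have hb2 : b = exF (s + 1 - (g.size + 1)) g := by
          rw [hb]
          congr 1
          omega
        rw [hb2] at hpsi hN ⊢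
        exact core_unequal (β := g.size + 1) (by omega) (by omega) rfl hs.symm ha' hb' hxN (hN hs0)
          (by omega) hpsi
    · have hgs : g.size = s := by omega
      have hbg : b = g := by
        rw [hb, hgs, Nat.sub_self]
        rfl
      have hbN : b.N s = 0 := by
        rw [hbg]
        rcases hg with hg | hg
        · exfalso
          rw [hg] at hgs
          simp only [Fr.size] at hgs
          omega
        · rw [← hgs]; exact hg
      exact core_equal hs0 hs.symm hbs ha' hb' hxN hbN (hN hs0) (by omega) hpsi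

/-- **The theorem for forests.** `x`, `g` arbitrary with `|x|, |g| ≤ k + 1` -/
theorem main_fr {x g : Fr} {k : ℕ} (hx : x.size ≤ k + 1) (hg : g.size ≤ k + 1)
    (hx' : x.size ≤ g.size + k) (hg' : g.size ≤ x.size + k)
    (f₂ : Fr) (hX : XEq (Fr.G (Fr.cons (exF k x) g)) (Fr.G f₂)) :
    Iso (Fr.cons (exF k x) g) f₂ := by
  obtain ⟨p, x₀, hx₀, hx₀m⟩ := exists_strip x.size x rfl
  obtain ⟨q, g₀, hg₀, hg₀m⟩ := exists_strip g.size g rfl
  have hxs : x.size = x₀.size + p := by rw [hx₀, exF_size]
  have hgs : g.size = g₀.size + q := by rw [hg₀, exF_size]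
  rcases Nat.le_total g₀.size x₀.size with hle | hle
  · have hiso : Iso (Fr.cons (exF k x) g) (Fr.cons (exF (k + p + q) x₀) g₀) := by
      rw [hx₀, hg₀, exF_exF]
      exact iso_slide (j' := 0) (by omega) x₀ g₀
    have hX1 : XEq (Fr.G (Fr.cons (exF (k + p + q) x₀) g₀)) (Fr.G f₂) := by
      obtain ⟨E⟩ := hiso
      exact hX.of_iso E SimpleGraph.Iso.refl
    exact hiso.trans (main_min hx₀m hg₀m hle (by omega) (by omega) f₂ hX1)
  · have hiso : Iso (Fr.cons (exF k x) g) (Fr.cons (exF (k + p + q) g₀) x₀) := by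
      rw [hx₀, hg₀, exF_exF]
      exact iso_flip (j' := 0) (by omega) x₀ g₀
    have hX1 : XEq (Fr.G (Fr.cons (exF (k + p + q) g₀) x₀)) (Fr.G f₂) := by
      obtain ⟨E⟩ := hiso
      exact hX.of_iso E SimpleGraph.Iso.refl
    exact hiso.trans (main_min hg₀m hx₀m hle (by omega) (by omega) f₂ hX1)

end Pool.MP_1af41f_co.BPT
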